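import Pool.Agent.Helper81_GB.Mvb

/-!
GB, modules ATT and GDE.
-/

namespace Pool.Agent.GB.H81

open MeasureTheory Complex Filter Topology Pool.Agent.H16Iso Pool.Agent.H62T Pool.Agent.H16F

/-- the isometries of the plane -/
noncomputable def iso (s : Bool) (a : Circle) (b : ℂ) : ℂ ≃ᵢ ℂ :=
  (if s then (rotation a).toIsometryEquiv else (conjLIE.trans (rotation a)).toIsometryEquiv).trans
    (IsometryEquiv.addRight b)

/-- identity or conjugation -/
noncomputable def cj (s : Bool) (z : ℂ) : ℂ := if s then z else (starRingEnd ℂ) z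

theorem cj_norm (s : Bool) (z : ℂ) : ‖cj s z‖ = ‖z‖ := by
  unfold cj
  split_ifs
  · rfl
  · exact Complex.norm_conj z

theorem iso_apply (s : Bool) (a : Circle) (b z : ℂ) : iso s a b z = (a : ℂ) * cj s z + b := by
  unfold iso cj
  cases s <;> simp [rotation_apply]

theorem iso_all (g : ℂ ≃ᵢ ℂ) : ∃ (s : Bool) (a : Circle) (b : ℂ), g = iso s a b := by
  obtain ⟨L, hL⟩ := Pool.Agent.H5O.isom_form g
  obtain ⟨a, h | h⟩ := linear_isometry_complex L
  · refine ⟨true, a, g 0, ?_⟩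
    ext z
    rw [iso_apply, hL, h]
    simp [cj, rotation_apply]
  · refine ⟨false, a, g 0, ?_⟩
    ext z
    rw [iso_apply, hL, h]
    simp [cj, rotation_apply]

theorem dist_mv_le {g g' : ℂ ≃ᵢ ℂ} {K : ConvexBody ℂ} {r : ℝ} (hr : 0 ≤ r)
    (h : ∀ x ∈ (K : Set ℂ), dist (g x) (g' x) ≤ r) : dist (mv g K) (mv g' K) ≤ r := by
  rw [← ConvexBody.hausdorffDist_coe, mv_coe, mv_coe]
  refine Metric.hausdorffDist_le_of_mem_dist hr ?_ ?_
  · rintro _ ⟨x, hx, rfl⟩
    exact ⟨g' x, ⟨x, hx, rfl⟩, h x hx⟩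
  · rintro _ ⟨x, hx, rfl⟩
    exact ⟨g x, ⟨x, hx, rfl⟩, by rw [dist_comm]; exact h x hx⟩

theorem iso_cont (K : ConvexBody ℂ) (s : Bool) :
    Continuous fun p : Circle × ℂ => mv (iso s p.1 p.2) K := by
  obtain ⟨R, hR, hK⟩ := K.isBounded.exists_pos_norm_le
  rw [Metric.continuous_iff]
  intro p ε hε
  have hpos : 0 < ε / (2 * (R + 1)) := by positivity
  refine ⟨ε / (2 * (R + 1)), hpos, fun q hq => ?_⟩
  rw [Prod.dist_eq, max_lt_iff] at hq
  obtain ⟨h1, h2⟩ := hq
  have h1' : ‖((q.1 : ℂ) - (p.1 : ℂ))‖ < ε / (2 * (R + 1)) := by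
    rw [← dist_eq_norm]; exact h1
  rw [dist_eq_norm] at h2
  have key : dist (mv (iso s q.1 q.2) K) (mv (iso s p.1 p.2) K) ≤ (R + 1) * (ε / (2 * (R + 1))) := by
    refine dist_mv_le (by positivity) fun x hx => ?_
    rw [iso_apply, iso_apply, dist_eq_norm]
    have e : (q.1 : ℂ) * cj s x + q.2 - ((p.1 : ℂ) * cj s x + p.2)
        = ((q.1 : ℂ) - p.1) * cj s x + (q.2 - p.2) := by ring
    rw [e]
    refine (norm_add_le _ _).trans ?_
    rw [norm_mul, cj_norm]
    have := hK x hx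
    have h3 : ‖(q.1 : ℂ) - p.1‖ * ‖x‖ ≤ ε / (2 * (R + 1)) * R :=
      mul_le_mul h1'.le this (norm_nonneg _) hpos.le
    linarith
  have e2 : (R + 1) * (ε / (2 * (R + 1))) = ε / 2 := by field_simp
  rw [e2] at key
  linarith

theorem att : AttStatement := by
  intro K K' h
  obtain ⟨R, hR, hK⟩ := K.isBounded.exists_pos_norm_le
  obtain ⟨R', hR', hK'⟩ := K'.isBounded.exists_pos_norm_le
  obtain ⟨x0, hx0⟩ := K.nonempty
  -- compactness
  have comp : IsCompact ((Set.univ : Set Circle) ×ˢ Metric.closedBall (0 : ℂ) (R + R' + 1)) :=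
    isCompact_univ.prod (isCompact_closedBall _ _)
  have hne : ((Set.univ : Set Circle) ×ˢ Metric.closedBall (0 : ℂ) (R + R' + 1)).Nonempty :=
    ⟨(1, 0), trivial, Metric.mem_closedBall_self (by positivity)⟩
  have hmin : ∀ s : Bool, ∃ p : Circle × ℂ, ∀ q : Circle × ℂ,
      dist (mv (iso s q.1 q.2) K) K' < 1 →
        dist (mv (iso s p.1 p.2) K) K' ≤ dist (mv (iso s q.1 q.2) K) K' := by
    intro s
    have hF : Continuous fun p : Circle × ℂ => dist (mv (iso s p.1 p.2) K) K' :=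
      (iso_cont K s).dist continuous_const
    obtain ⟨p, -, hm⟩ := comp.exists_isMinOn hne hF.continuousOn
    refine ⟨p, fun q hq => ?_⟩
    have hmem : q ∈ (Set.univ : Set Circle) ×ˢ Metric.closedBall (0 : ℂ) (R + R' + 1) := by
      refine ⟨trivial, ?_⟩
      rw [Metric.mem_closedBall, dist_zero_right]
      have h1 : iso s q.1 q.2 x0 ∈ (mv (iso s q.1 q.2) K : Set ℂ) := ⟨x0, hx0, rfl⟩
      obtain ⟨y, hy, hd⟩ := Metric.exists_dist_lt_of_hausdorffDist_lt h1 hq
        ConvexBody.hausdorffEDist_ne_top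
      rw [iso_apply, dist_eq_norm] at hd
      have h2 : q.2 = ((q.1 : ℂ) * cj s x0 + q.2 - y) + y - (q.1 : ℂ) * cj s x0 := by ring
      rw [h2]
      refine (norm_sub_le _ _).trans ?_
      refine (add_le_add (norm_add_le _ _) le_rfl).trans ?_
      rw [norm_mul, cj_norm, Circle.norm_coe, one_mul]
      have := hK x0 hx0
      have := hK' y hy
      linarith
    exact hm hmem
  choose p hp using hmin
  -- one of the two minima vanishes
  have hz : dist (mv (iso true (p true).1 (p true).2) K) K' = 0 ∨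
      dist (mv (iso false (p false).1 (p false).2) K) K' = 0 := by
    by_contra hcon
    push Not at hcon
    obtain ⟨c1, c2⟩ := hcon
    have c1' := lt_of_le_of_ne (dist_nonneg (x := mv (iso true (p true).1 (p true).2) K) (y := K')) (Ne.symm c1)
    have c2' := lt_of_le_of_ne (dist_nonneg (x := mv (iso false (p false).1 (p false).2) K) (y := K')) (Ne.symm c2)
    obtain ⟨ε, hε⟩ : ∃ ε : ℝ, ε = min 1 (min (dist (mv (iso true (p true).1 (p true).2) K) K')
      (dist (mv (iso false (p false).1 (p false).2) K) K')) := ⟨_, rfl⟩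
    have hε0 : 0 < ε := by rw [hε]; exact lt_min one_pos (lt_min c1' c2')
    have hε1 : ε ≤ 1 := by rw [hε]; exact min_le_left _ _
    have hε2 : ε ≤ dist (mv (iso true (p true).1 (p true).2) K) K' := by
      rw [hε]; exact (min_le_right _ _).trans (min_le_left _ _)
    have hε3 : ε ≤ dist (mv (iso false (p false).1 (p false).2) K) K' := by
      rw [hε]; exact (min_le_right _ _).trans (min_le_right _ _)
    obtain ⟨g, hg⟩ := h ε hε0
    obtain ⟨s, a, b, rfl⟩ := iso_all g
    have h3 := hp s (a, b) (lt_of_lt_of_le hg hε1)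
    have h4 : dist (mv (iso s (a, b).1 (a, b).2) K) K' < ε := hg
    cases s
    · linarith
    · linarith
  rcases hz with hz | hz
  · exact ⟨_, congrArg (fun L : ConvexBody ℂ => (L : Set ℂ)) (dist_eq_zero.1 hz)⟩
  · exact ⟨_, congrArg (fun L : ConvexBody ℂ => (L : Set ℂ)) (dist_eq_zero.1 hz)⟩

theorem gde (hC : CloStatement) (hA : AttStatement) : GdeStatement := by
  have e : {K : CB | Det K.1} = ⋂ m : ℕ, {K : CB | ∃ K' : CB,
      (∀ k, dirEig (ins K.1) k = dirEig (ins K'.1) k) ∧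
      ∀ g : ℂ ≃ᵢ ℂ, 1 / ((m : ℝ) + 1) ≤ dist (mv g K.1) K'.1}ᶜ := by
    ext K
    simp only [Set.mem_iInter, Set.mem_compl_iff, Set.mem_ofPred_eq]
    constructor
    · rintro hK m ⟨K', h1, h2⟩
      obtain ⟨g, hg⟩ := hK K'.1 K'.2 h1
      have h3 := h2 g
      have h4 : mv g K.1 = K'.1 := ConvexBody.ext hg
      rw [h4, dist_self] at h3
      have : (0 : ℝ) < 1 / ((m : ℝ) + 1) := by positivity
      linarith
    · intro hK K' hne hiso
      refine hA K.1 K' fun ε hε => ?_
      obtain ⟨m, hm⟩ := exists_nat_one_div_lt hε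
      by_contra hcon
      push Not at hcon
      exact hK m ⟨⟨K', hne⟩, hiso, fun g => hm.le.trans (hcon g)⟩
  unfold GdeStatement
  rw [e]
  refine IsGδ.iInter_of_isOpen fun m => ?_
  exact (hC (1 / ((m : ℝ) + 1)) (by positivity)).isOpen_compl

end Pool.Agent.GB.H81
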