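import Pool.Agent.Helper81_GB.Sand
import Mathlib.Topology.MetricSpace.Closeds
import Mathlib.Topology.Baire.LocallyCompactRegular

/-!
GB, module BAI: the space of the convex bodies with nonempty interior is a Baire space.
-/

namespace Pool.Agent.GB.H81

open MeasureTheory Complex Filter Topology Pool.Agent.H16Iso Pool.Agent.H62T Pool.Agent.H16F
open TopologicalSpace

/-- a convex body as a compact set -/
def tnc (K : ConvexBody ℂ) : NonemptyCompacts ℂ := ⟨⟨K, K.isCompact⟩, K.nonempty⟩

theorem tnc_coe (K : ConvexBody ℂ) : (tnc K : Set ℂ) = K := rfl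

theorem tnc_isometry : Isometry tnc := by
  refine Isometry.of_dist_eq fun K L => ?_
  rw [Metric.NonemptyCompacts.dist_eq, tnc_coe, tnc_coe, ConvexBody.hausdorffDist_coe]

theorem limit_convex {s : ℕ → NonemptyCompacts ℂ} {t : NonemptyCompacts ℂ}
    (hs : ∀ n, Convex ℝ (s n : Set ℂ)) (h : Tendsto s atTop (𝓝 t)) : Convex ℝ (t : Set ℂ) := by
  have fin : ∀ A B : NonemptyCompacts ℂ, Metric.hausdorffEDist (A : Set ℂ) B ≠ ⊤ := fun A B =>
    Metric.hausdorffEDist_ne_top_of_nonempty_of_bounded A.nonempty B.nonempty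
      A.isCompact.isBounded B.isCompact.isBounded
  intro x hx y hy a b ha hb hab
  have hcl : IsClosed (t : Set ℂ) := t.isCompact.isClosed
  rw [← hcl.closure_eq, Metric.mem_closure_iff]
  intro ε hε
  rw [Metric.tendsto_atTop] at h
  obtain ⟨N, hN⟩ := h (ε / 2) (by positivity)
  have hd := hN N le_rfl
  rw [Metric.NonemptyCompacts.dist_eq] at hd
  obtain ⟨x', hx', hdx⟩ := Metric.exists_dist_lt_of_hausdorffDist_lt' hx hd (fin _ _)
  obtain ⟨y', hy', hdy⟩ := Metric.exists_dist_lt_of_hausdorffDist_lt' hy hd (fin _ _)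
  have hz := hs N hx' hy' ha hb hab
  obtain ⟨z, hz', hdz⟩ := Metric.exists_dist_lt_of_hausdorffDist_lt hz hd (fin _ _)
  refine ⟨z, hz', ?_⟩
  have h1 : dist (a • x + b • y) (a • x' + b • y') ≤ ε / 2 := by
    rw [dist_comm] at hdx hdy
    rw [dist_eq_norm] at hdx hdy ⊢
    have e : a • x + b • y - (a • x' + b • y') = a • (x - x') + b • (y - y') := by
      rw [smul_sub, smul_sub]; abel
    rw [e]
    refine (norm_add_le _ _).trans ?_
    rw [norm_smul, norm_smul, Real.norm_eq_abs, Real.norm_eq_abs, abs_of_nonneg ha,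
      abs_of_nonneg hb]
    nlinarith
  have h2 := dist_triangle (a • x + b • y) (a • x' + b • y') z
  linarith

theorem tnc_closed : IsClosedEmbedding tnc := by
  refine ⟨tnc_isometry.isEmbedding, ?_⟩
  have e : Set.range tnc = {t : NonemptyCompacts ℂ | Convex ℝ (t : Set ℂ)} := by
    ext t
    constructor
    · rintro ⟨K, rfl⟩
      exact K.convex
    · intro ht
      exact ⟨⟨t, ht, t.isCompact, t.nonempty⟩, rfl⟩
  rw [e]
  refine IsSeqClosed.isClosed ?_
  intro s t hs h
  exact limit_convex hs h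

theorem open_CB : IsOpen {K : ConvexBody ℂ | (interior (K : Set ℂ)).Nonempty} := by
  rw [Metric.isOpen_iff]
  rintro K ⟨c, hc⟩
  obtain ⟨δ, hδ, h⟩ := sand K c hc (1 / 2) (by norm_num) (by norm_num)
  exact ⟨δ, hδ, fun K' hK' => ⟨c, (h K' hK').1⟩⟩

theorem bai : BaiStatement := by
  have h1 : LocallyCompactSpace (ConvexBody ℂ) := tnc_closed.locallyCompactSpace
  have h2 : LocallyCompactSpace CB := open_CB.locallyCompactSpace
  exact BaireSpace.of_t2Space_locallyCompactSpace

end Pool.Agent.GB.H81
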