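import Pool.Agent.Helper62_GB.Stmt
import Pool.Agent.Helper5_OPEN.Isom

/-!
GB, module MVB: images of convex bodies under isometries.
-/

namespace Pool.Agent.GB.H81

open MeasureTheory Complex Filter Topology Pool.Agent.H16Iso Pool.Agent.H62T Pool.Agent.H16F

theorem mv_coe (g : ℂ ≃ᵢ ℂ) (K : ConvexBody ℂ) : (mv g K : Set ℂ) = g '' K := rfl

theorem dist_mv (g : ℂ ≃ᵢ ℂ) (K L : ConvexBody ℂ) : dist (mv g K) (mv g L) = dist K L := by
  rw [← ConvexBody.hausdorffDist_coe, ← ConvexBody.hausdorffDist_coe, mv_coe, mv_coe]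
  exact Metric.hausdorffDist_image g.isometry

theorem ins_mv (g : ℂ ≃ᵢ ℂ) (K : ConvexBody ℂ) : ins (mv g K) = g '' ins K := by
  unfold ins
  rw [mv_coe]
  exact (g.toHomeomorph.image_interior (K : Set ℂ)).symm

theorem vol_image (g : ℂ ≃ᵢ ℂ) {S : Set ℂ} (hS : MeasurableSet S) : volume (g '' S) = volume S := by
  have h := (Pool.Agent.H5O.isom_measurePreserving g.symm).measure_preimage hS.nullMeasurableSet
  have e : g.symm ⁻¹' S = g '' S := (g.image_eq_preimage_symm S).symm
  rw [e] at h
  exact h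

theorem ins_open (K : ConvexBody ℂ) : IsOpen (ins K) := isOpen_interior

theorem ins_convex (K : ConvexBody ℂ) : Convex ℝ (ins K) := K.convex.interior

theorem ins_sub (K : ConvexBody ℂ) : ins K ⊆ K := interior_subset

theorem closure_ins (K : ConvexBody ℂ) (h : (ins K).Nonempty) : closure (ins K) = K := by
  unfold ins
  rw [K.convex.closure_interior_eq_closure_of_nonempty_interior h, K.isClosed.closure_eq]

theorem mvb : MvbStatement := by
  refine ⟨dist_mv, fun g K => ⟨ins_mv g K, ?_, fun k => ?_⟩, fun g g' K => ?_, fun K => ⟨?_, fun h => ⟨?_, ?_⟩⟩⟩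
  · rw [ins_mv]
    exact vol_image g (ins_open K).measurableSet
  · rw [ins_mv]
    exact Pool.Agent.H5O.dirEig_isom g _ k
  · apply ConvexBody.ext
    rw [mv_coe, mv_coe, mv_coe, ← Set.image_comp]
    rfl
  · exact closure_minimal (ins_sub K) K.isClosed
  · exact closure_ins K h
  · exact ⟨ins_open K, ins_convex K, K.isBounded.subset (ins_sub K), h⟩

end Pool.Agent.GB.H81
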