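import Pool.Agent.Helper81_GB.Mvb
import Pool.Agent.Helper1_Gen.EigMono

/-!
GB, modules SAND, VOLC, EIGC: bodies which are close to a given body; continuity of the area and
of the eigenvalues.
-/

namespace Pool.Agent.GB.H81

open MeasureTheory Complex Filter Topology Pool.Agent.H16Iso Pool.Agent.H62T Pool.Agent.H16F

/-- a ball contained in a body is almost contained in a body which is close -/
theorem ball_sub {K K' : ConvexBody ℂ} {c : ℂ} {r d : ℝ} (h : dist K' K < d)
    (hb : Metric.closedBall c r ⊆ K) : Metric.closedBall c (r - d) ⊆ K' := by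
  have hd : 0 < d := dist_nonneg.trans_lt h
  intro y hy
  by_contra hyK
  obtain ⟨p, hp, hpy⟩ := K'.isCompact.exists_infDist_eq_dist K'.nonempty y
  have hne : y - p ≠ 0 := by
    intro h0
    apply hyK
    rw [sub_eq_zero.1 h0]
    exact hp
  have hn : 0 < ‖y - p‖ := norm_pos_iff.2 hne
  have hin : ∀ w ∈ (K' : Set ℂ), inner ℝ (y - p) (w - p) ≤ 0 := by
    rw [← norm_eq_iInf_iff_real_inner_le_zero K'.convex hp]
    have : Nonempty (K' : Set ℂ) := K'.nonempty.to_subtype
    apply le_antisymm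
    · refine le_ciInf fun w => ?_
      rw [← dist_eq_norm, ← dist_eq_norm, ← hpy]
      exact Metric.infDist_le_dist_of_mem w.2
    · exact ciInf_le ⟨0, by rintro _ ⟨w, rfl⟩; exact norm_nonneg _⟩ (⟨p, hp⟩ : (K' : Set ℂ))
  -- the point beyond
  obtain ⟨q, hq⟩ : ∃ q : ℂ, q = y + (d / ‖y - p‖) • (y - p) := ⟨_, rfl⟩
  have hqK : q ∈ (K : Set ℂ) := by
    apply hb
    rw [Metric.mem_closedBall, dist_eq_norm] at hy ⊢
    have e : q - c = (y - c) + (d / ‖y - p‖) • (y - p) := by rw [hq]; ring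
    rw [e]
    refine (norm_add_le _ _).trans ?_
    rw [norm_smul, Real.norm_eq_abs, abs_of_pos (div_pos hd hn), div_mul_cancel₀ _ hn.ne']
    linarith
  obtain ⟨z, hz, hzq⟩ := Metric.exists_dist_lt_of_hausdorffDist_lt' hqK h
    ConvexBody.hausdorffEDist_ne_top
  have h1 := hin z hz
  have h2 : inner ℝ (y - p) (q - p) = ‖y - p‖ ^ 2 + d * ‖y - p‖ := by
    have e : q - p = (1 + d / ‖y - p‖) • (y - p) := by
      rw [hq, add_smul, one_smul]; ring
    rw [e, inner_smul_right, real_inner_self_eq_norm_sq]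
    field_simp
  have h3 : inner ℝ (y - p) (q - p) = inner ℝ (y - p) (z - p) + inner ℝ (y - p) (q - z) := by
    rw [← inner_add_right]; congr 1; ring
  have h4 : inner ℝ (y - p) (q - z) ≤ ‖y - p‖ * ‖q - z‖ := real_inner_le_norm _ _
  have h5 : ‖q - z‖ < d := by
    rw [← dist_eq_norm, dist_comm]; exact hzq
  have h6 := mul_lt_mul_of_pos_left h5 hn
  nlinarith [sq_nonneg ‖y - p‖]

/-- homothetic points -/
theorem homo_mem {K : Set ℂ} (hK : Convex ℝ K) {c x y : ℂ} {ρ ε δ : ℝ} (hb : Metric.closedBall c ρ ⊆ K)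
    (hx : x ∈ K) (hxy : dist y x < δ) (hε : 0 < ε) (hε1 : ε < 1) (h : δ < ε * ρ) :
    c + ((1 - ε : ℝ) : ℂ) * (y - c) ∈ interior K := by
  have hδ : 0 < δ := dist_nonneg.trans_lt hxy
  rw [mem_interior_iff_mem_nhds, Metric.mem_nhds_iff]
  refine ⟨ε * ρ - δ, by linarith, fun w hw => ?_⟩
  rw [Metric.mem_ball, dist_eq_norm] at hw
  rw [dist_eq_norm] at hxy
  obtain ⟨v, hv⟩ : ∃ v : ℂ, v = w - (c + ((1 - ε : ℝ) : ℂ) * (x - c)) := ⟨_, rfl⟩
  have hvn : ‖v‖ ≤ ε * ρ := by
    have e : v = (w - (c + ((1 - ε : ℝ) : ℂ) * (y - c))) + ((1 - ε : ℝ) : ℂ) * (y - x) := by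
      rw [hv]; ring
    rw [e]
    refine (norm_add_le _ _).trans ?_
    rw [norm_mul, Complex.norm_real, Real.norm_eq_abs, abs_of_pos (by linarith)]
    have : (1 - ε) * ‖y - x‖ ≤ 1 * ‖y - x‖ := mul_le_mul_of_nonneg_right (by linarith) (norm_nonneg _)
    linarith
  have hm : c + (ε⁻¹ : ℝ) • v ∈ K := by
    apply hb
    rw [Metric.mem_closedBall, dist_eq_norm, add_sub_cancel_left, norm_smul, Real.norm_eq_abs,
      abs_of_pos (inv_pos.2 hε), inv_mul_le_iff₀ hε]
    exact hvn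
  have := hK hx hm (by linarith : 0 ≤ 1 - ε) hε.le (by ring)
  convert this using 1
  rw [smul_add, smul_smul, mul_inv_cancel₀ hε.ne', one_smul, hv]
  simp only [Complex.real_smul]
  push_cast
  ring

theorem sand : SandStatement := by
  intro K c hc ε hε hε1
  have hopen : IsOpen (ins K) := ins_open K
  obtain ⟨r, hr, hrb⟩ := Metric.nhds_basis_closedBall.mem_iff.1 (hopen.mem_nhds hc)
  have hb : Metric.closedBall c r ⊆ (K : Set ℂ) := hrb.trans (ins_sub K)
  refine ⟨ε * r / 4, by positivity, fun K' hK' => ?_⟩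
  have h4 : ε * r / 4 ≤ r / 4 := by
    have := mul_le_mul_of_nonneg_right hε1.le hr.le
    linarith
  have hb' : Metric.closedBall c (r - ε * r / 4) ⊆ (K' : Set ℂ) := ball_sub hK' hb
  refine ⟨?_, fun x hx => ?_, fun x hx => ?_⟩
  · apply interior_mono hb'
    rw [mem_interior_iff_mem_nhds]
    exact Metric.closedBall_mem_nhds c (by linarith)
  · obtain ⟨x', hx', hd⟩ := Metric.exists_dist_lt_of_hausdorffDist_lt' hx hK'
      ConvexBody.hausdorffEDist_ne_top
    refine homo_mem K'.convex hb' hx' (δ := ε * r / 4) (by rw [dist_comm]; exact hd) hε hε1 ?_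
    nlinarith
  · obtain ⟨x', hx', hd⟩ := Metric.exists_dist_lt_of_hausdorffDist_lt hx hK'
      ConvexBody.hausdorffEDist_ne_top
    refine homo_mem K.convex hb hx' (δ := ε * r / 4) hd hε hε1 ?_
    nlinarith

/-- a criterion for continuity -/
theorem cont_of_sand (hS : SandStatement) {F : CB → ℝ}
    (hu : (∀ (K K' : CB) (c : ℂ) (s : ℝ), 0 < s → s < 1 →
      (∀ x ∈ (K.1 : Set ℂ), c + (s : ℂ) * (x - c) ∈ ins K'.1) → s ^ 2 * F K ≤ F K') ∨
      (∀ (K K' : CB) (c : ℂ) (s : ℝ), 0 < s → s < 1 →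
      (∀ x ∈ (K.1 : Set ℂ), c + (s : ℂ) * (x - c) ∈ ins K'.1) → s ^ 2 * F K' ≤ F K)) :
    Continuous F := by
  rw [continuous_iff_continuousAt]
  intro K
  obtain ⟨c, hc⟩ := K.2
  -- two-sided estimate
  have key : ∀ ε : ℝ, 0 < ε → ε < 1 → ∀ᶠ K' in 𝓝 K, (1 - ε) ^ 2 * F K ≤ F K' ∧
      (1 - ε) ^ 2 * F K' ≤ F K := by
    intro ε hε hε1
    obtain ⟨δ, hδ, hd⟩ := hS K.1 c hc ε hε hε1
    filter_upwards [Metric.ball_mem_nhds K hδ] with K' hK'
    have hK'' : dist K'.1 K.1 < δ := hK'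
    obtain ⟨-, h1, h2⟩ := hd K'.1 hK''
    rcases hu with hu | hu
    · exact ⟨hu K K' c (1 - ε) (by linarith) (by linarith) h1,
        hu K' K c (1 - ε) (by linarith) (by linarith) h2⟩
    · exact ⟨hu K' K c (1 - ε) (by linarith) (by linarith) h2,
        hu K K' c (1 - ε) (by linarith) (by linarith) h1⟩
  have t1 : Tendsto (fun ε : ℝ => (1 - ε) ^ 2 * F K) (𝓝[>] 0) (𝓝 (F K)) := by
    have : Continuous fun ε : ℝ => (1 - ε) ^ 2 * F K := by fun_prop
    have h2 := this.tendsto 0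
    simp only [sub_zero, one_pow, one_mul] at h2
    exact h2.mono_left nhdsWithin_le_nhds
  have t2 : Tendsto (fun ε : ℝ => F K / (1 - ε) ^ 2) (𝓝[>] 0) (𝓝 (F K)) := by
    have h2 : ContinuousAt (fun ε : ℝ => F K / (1 - ε) ^ 2) 0 := by
      refine ContinuousAt.div continuousAt_const (by fun_prop) (by norm_num)
    have h3 : Tendsto (fun ε : ℝ => F K / (1 - ε) ^ 2) (𝓝 0) (𝓝 (F K)) := by
      have := h2.tendsto
      simpa using this
    exact h3.mono_left nhdsWithin_le_nhds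
  have small : ∀ᶠ ε : ℝ in 𝓝[>] 0, 0 < ε ∧ ε < 1 := by
    have h1 : Set.Ioo (0 : ℝ) 1 ∈ 𝓝[>] (0 : ℝ) := Ioo_mem_nhdsGT one_pos
    filter_upwards [h1] with ε hε
    exact hε
  refine tendsto_order.2 ⟨fun a ha => ?_, fun b hb => ?_⟩
  · obtain ⟨ε, ⟨hε, hε1⟩, h2⟩ := (small.and (t1.eventually (lt_mem_nhds ha))).exists
    filter_upwards [key ε hε hε1] with K' hK'
    linarith [hK'.1]
  · obtain ⟨ε, ⟨hε, hε1⟩, h2⟩ := (small.and (t2.eventually (gt_mem_nhds hb))).exists
    filter_upwards [key ε hε hε1] with K' hK'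
    have h3 : 0 < (1 - ε) ^ 2 := by
      have : 0 < 1 - ε := by linarith
      positivity
    have h4 : F K' ≤ F K / (1 - ε) ^ 2 := by
      rw [le_div_iff₀ h3]
      linarith [hK'.2]
    linarith

theorem vol_homo {K K' : ConvexBody ℂ} {c : ℂ} {s : ℝ} (hs : 0 < s)
    (h : ∀ x ∈ (K : Set ℂ), c + (s : ℂ) * (x - c) ∈ ins K') :
    s ^ 2 * (volume (ins K)).toReal ≤ (volume (ins K')).toReal := by
  have h1 := Measure.addHaar_image_homothety (μ := (volume : Measure ℂ)) c s (ins K)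
  have h2 : AffineMap.homothety c s '' ins K ⊆ ins K' := by
    rintro _ ⟨x, hx, rfl⟩
    have := h x (ins_sub K hx)
    convert this using 1
    rw [AffineMap.homothety_apply]
    simp only [vsub_eq_sub, vadd_eq_add, Complex.real_smul]
    ring
  have h3 : volume (ins K') ≠ ⊤ := ((K'.isBounded.subset (ins_sub K')).measure_lt_top).ne
  have h4 := ENNReal.toReal_mono h3 (measure_mono h2)
  rw [h1, ENNReal.toReal_mul, Complex.finrank_real_complex, ENNReal.toReal_ofReal (abs_nonneg _),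
    abs_of_pos (by positivity)] at h4
  exact h4

theorem volc (hS : SandStatement) : VolcStatement :=
  cont_of_sand hS (Or.inl fun _ _ _ _ hs _ h => vol_homo hs h)

theorem eigc (hS : SandStatement) : EigcStatement := by
  intro k
  refine cont_of_sand hS (Or.inr fun K K' c s hs _ h => ?_)
  have h1 := Pool.Agent.H1Gen.dirEig_td_le hs (c - (s : ℂ) * c) (Ω := ins K.1) (Ω' := ins K'.1)
    (fun z hz => by
      have := h z (ins_sub K.1 hz)
      convert this using 1
      simp only [Complex.real_smul]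
      ring) (k := k) (Pool.Agent.H1Gen.eigSet_nonempty (ins_open K.1) K.2 k)
  rw [le_div_iff₀ (by positivity)] at h1
  linarith

theorem volc_all : VolcStatement := volc sand

theorem eigc_all : EigcStatement := eigc sand

end Pool.Agent.GB.H81
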