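import Pool.Agent.Helper81_GB.Bai
import Pool.Agent.Helper81_GB.Att

/-!
GB, module CLO: the bodies with an isospectral body which is not close to an isometric image form
a closed set.
-/

namespace Pool.Agent.GB.H81

open MeasureTheory Complex Filter Topology Pool.Agent.H16Iso Pool.Agent.H62T Pool.Agent.H16F

theorem vol_eq (hW : WeylStatement) {Ω Ω' : Set ℂ} (h : Dom Ω) (h' : Dom Ω')
    (e : ∀ k, dirEig Ω k = dirEig Ω' k) : (volume Ω).toReal = (volume Ω').toReal := by
  have h1 := hW Ω h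
  have h2 := hW Ω' h'
  simp only [e] at h1
  exact tendsto_nhds_unique h1 h2

theorem dom_ins {K : ConvexBody ℂ} (h : (ins K).Nonempty) : Dom (ins K) :=
  ⟨ins_open K, ins_convex K, K.isBounded.subset (ins_sub K), h⟩

theorem vol_pos (K : CB) : 0 < (volume (ins K.1)).toReal :=
  ENNReal.toReal_pos ((ins_open K.1).measure_pos volume K.2).ne'
    ((K.1.isBounded.subset (ins_sub K.1)).measure_lt_top).ne

theorem vol_le (K : ConvexBody ℂ) : (volume (ins K)).toReal ≤ (volume (K : Set ℂ)).toReal :=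
  ENNReal.toReal_mono K.isBounded.measure_lt_top.ne (measure_mono (ins_sub K))

theorem clo (hW : WeylStatement) (hB : BndStatement) (hE : EigcStatement) (hV : VolcStatement)
    (hBla : BlaStatement) : CloStatement := by
  intro ε hε
  refine IsSeqClosed.isClosed ?_
  intro K K0 hK hlim
  choose K' hiso hfar using hK
  -- areas and first eigenvalues
  have hvol : ∀ j, (volume (ins (K j).1)).toReal = (volume (ins (K' j).1)).toReal := fun j =>
    vol_eq hW (dom_ins (K j).2) (dom_ins (K' j).2) (hiso j)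
  have tv : Tendsto (fun j => (volume (ins (K j).1)).toReal) atTop (𝓝 (volume (ins K0.1)).toReal) :=
    (hV.tendsto K0).comp hlim
  have te : ∀ k, Tendsto (fun j => dirEig (ins (K j).1) k) atTop (𝓝 (dirEig (ins K0.1) k)) :=
    fun k => ((hE k).tendsto K0).comp hlim
  obtain ⟨A, hA⟩ : ∃ A : ℝ, A = (volume (ins K0.1)).toReal := ⟨_, rfl⟩
  have hA0 : 0 < A := by rw [hA]; exact vol_pos K0
  rw [← hA] at tv
  obtain ⟨L, hL⟩ : ∃ L : ℝ, L = dirEig (ins K0.1) 0 + 1 := ⟨_, rfl⟩
  have ev : ∀ᶠ j in atTop, A / 2 < (volume (ins (K' j).1)).toReal ∧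
      (volume (ins (K' j).1)).toReal < 2 * A ∧ dirEig (ins (K' j).1) 0 < L := by
    filter_upwards [tv.eventually (lt_mem_nhds (by linarith : A / 2 < A)),
      tv.eventually (gt_mem_nhds (by linarith : A < 2 * A)),
      (te 0).eventually (gt_mem_nhds (by rw [hL]; linarith : dirEig (ins K0.1) 0 < L))] with j h1 h2 h3
    rw [← hvol j, ← hiso j 0]
    exact ⟨h1, h2, h3⟩
  obtain ⟨N, hN⟩ := eventually_atTop.1 ev
  obtain ⟨R, hR, hRb⟩ := hB (2 * A) L
  -- translated bodies
  have hc : ∀ j, ∃ c, ins (K' (N + j)).1 ⊆ Metric.ball c R := by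
    intro j
    obtain ⟨h1, h2, h3⟩ := hN (N + j) (Nat.le_add_right _ _)
    exact hRb _ (dom_ins (K' (N + j)).2) h2.le h3.le
  choose c hc using hc
  obtain ⟨τ, hτ⟩ : ∃ τ : ℕ → (ℂ ≃ᵢ ℂ), ∀ j z, τ j z = z + (-c j) :=
    ⟨fun j => IsometryEquiv.addRight (-c j), fun j z => rfl⟩
  obtain ⟨M, hM⟩ : ∃ M : ℕ → ConvexBody ℂ, ∀ j, M j = mv (τ j) (K' (N + j)).1 := ⟨_, fun j => rfl⟩
  have hM1 : ∀ j, (M j : Set ℂ) ⊆ Metric.closedBall 0 R := by
    intro j
    rw [hM]
    rintro _ ⟨z, hz, rfl⟩
    have h1 : (K' (N + j)).1.carrier ⊆ Metric.closedBall (c j) R := by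
      have h2 : closure (ins (K' (N + j)).1) ⊆ Metric.closedBall (c j) R :=
        closure_minimal ((hc j).trans Metric.ball_subset_closedBall) Metric.isClosed_closedBall
      rw [closure_ins _ (K' (N + j)).2] at h2
      exact h2
    have h3 := h1 hz
    rw [Metric.mem_closedBall, dist_eq_norm] at h3
    rw [Metric.mem_closedBall, dist_zero_right, hτ, ← sub_eq_add_neg]
    exact h3
  have hMins : ∀ j, ins (M j) = τ j '' ins (K' (N + j)).1 := fun j => by rw [hM, ins_mv]
  have hMv : ∀ j, (volume (ins (M j))).toReal = (volume (ins (K' (N + j)).1)).toReal := by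
    intro j
    rw [hMins, vol_image _ (ins_open _).measurableSet]
  have hM2 : ∀ j, A / 2 ≤ (volume (M j : Set ℂ)).toReal := by
    intro j
    obtain ⟨h1, h2, h3⟩ := hN (N + j) (Nat.le_add_right _ _)
    have h4 := vol_le (M j)
    rw [hMv] at h4
    linarith
  obtain ⟨L0, φ, hφ, hlim', hL0⟩ := hBla R (A / 2) (by linarith) M hM1 hM2
  have hMne : ∀ j, (interior (M j : Set ℂ)).Nonempty := by
    intro j
    have : (ins (M j)).Nonempty := by
      rw [hMins]
      exact (K' (N + j)).2.image _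
    exact this
  -- the limit in `CB`
  have tCB : Tendsto (fun j => (⟨M (φ j), hMne (φ j)⟩ : CB)) atTop (𝓝 (⟨L0, hL0⟩ : CB)) :=
    tendsto_subtype_rng.2 hlim'
  have tN : Tendsto (fun j => N + φ j) atTop atTop :=
    tendsto_atTop_mono (fun j => Nat.le_add_left _ _) hφ.tendsto_atTop
  refine ⟨⟨L0, hL0⟩, fun k => ?_, fun g => ?_⟩
  · have t1 := ((hE k).tendsto (⟨L0, hL0⟩ : CB)).comp tCB
    have t2 := (te k).comp tN
    have e : ((fun K : CB => dirEig (ins K.1) k) ∘ fun j => (⟨M (φ j), hMne (φ j)⟩ : CB))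
        = (fun j => dirEig (ins (K j).1) k) ∘ fun j => N + φ j := by
      funext j
      simp only [Function.comp_apply]
      rw [hMins, Pool.Agent.H5O.dirEig_isom, hiso]
    rw [e] at t1
    exact tendsto_nhds_unique t2 t1
  · have hd : ∀ j, ε ≤ dist (mv g (K (N + φ j)).1) (M (φ j)) := by
      intro j
      have h1 := hfar (N + φ j) (g.trans (τ (φ j)).symm)
      have h2 : mv (τ (φ j)) (mv (g.trans (τ (φ j)).symm) (K (N + φ j)).1) = mv g (K (N + φ j)).1 := by
        apply ConvexBody.ext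
        rw [mv_coe, mv_coe, mv_coe, ← Set.image_comp]
        congr 1
        funext z
        simp
      rw [← dist_mv (τ (φ j)), h2, ← hM] at h1
      exact h1
    have t1 : Tendsto (fun j => (K (N + φ j)).1) atTop (𝓝 K0.1) :=
      ((continuous_subtype_val.tendsto K0).comp hlim).comp tN
    have t2 : Tendsto (fun j => mv g (K (N + φ j)).1) atTop (𝓝 (mv g K0.1)) := by
      have hcont : Continuous (mv g) := (Isometry.of_dist_eq (dist_mv g)).continuous
      exact (hcont.tendsto K0.1).comp t1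
    exact ge_of_tendsto (t2.dist hlim') (Eventually.of_forall hd)

end Pool.Agent.GB.H81
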